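import Pool.Agent.X151.QG.Wheel

/-!
A compact metric graph (the wheel with four spokes and all edges of equal length) whose hot-spot
set for the standard Laplacian is infinite but not the whole graph.
-/

namespace Pool.Agent.Results.MP_c0afcf_an.WheelHotSpots

open Pool.Agent.X151.QG

/-- There is a compact metric graph with standard vertex conditions for which the set `M` of the
points where some second eigenfunction attains its global maximum or minimum is infinite and
different from the whole graph. -/
theorem result : ∃ Γ : MetricGraph,
    (Γ.M (fun _ => 0)).Infinite ∧ Γ.M (fun _ => 0) ≠ Set.univ := by
  have h00 : hubStr 0 = fun _ => 0 := by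
    funext v; rcases v with _ | j <;> rfl
  have := wheel_M le_rfl wheel_std
  rw [h00] at this
  exact ⟨wheel, this⟩

end Pool.Agent.Results.MP_c0afcf_an.WheelHotSpots
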